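import Pool.Agent.Helper87.PLap.Main

set_option autoImplicit false

namespace Pool.Agent.Results.MP_799515_an.ScalingMomentaDiffer

open Pool.Agent.Helper87.PLapDefs

/-- For some `p ≠ 2` there is a basic periodic eigenvalue `Λ` with two eigenfunctions whose scaling
momenta (constant in time) are different. -/
theorem result : ∃ p : ℝ, 1 < p ∧ p ≠ 2 ∧ ∃ Λ : ℝ, IsBasicEigenvalue p Λ ∧
    ∃ x₁ x₂ : ℝ → Plane, IsEigenfunction p Λ x₁ ∧ IsEigenfunction p Λ x₂ ∧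
      ∃ μ₁ μ₂ : ℝ, μ₁ ≠ μ₂ ∧ (∀ t, scalingMomentum p Λ x₁ t = μ₁) ∧
        (∀ t, scalingMomentum p Λ x₂ t = μ₂) :=
  Pool.Agent.Helper87.PLap.main

end Pool.Agent.Results.MP_799515_an.ScalingMomentaDiffer
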